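import Pool.Agent.H950.FK.DomFam

/-!
# The law of the FK interface is Hölder continuous in the domain, uniformly in the mesh, for all `q ≥ 1`

The random-cluster (FK) model on `δ ℤ²` with any cluster weight `q ≥ 1` and any edge weight
`x = p / (1 - p) > 0` (in particular at the self-dual point `x = √q`), in plane domains
`D = {x + i y : L < y < H, w y < x < z y}` between the graphs of two continuous functions which meet
at the heights `L` and `H`, wired on the left boundary arc, free on the right one. The interface runs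
from the upper to the lower marked point; its trace is a random element of the space of nonempty
compact sets with the Hausdorff metric.

* The laws of the interfaces in two such domains at distance `t`, for arbitrary lattice
  approximations with error `s` at the same mesh `δ`, are within `16 (K + 3) (s + t + δ) ^ (1 / 3)`
  of each other in the Lévy-Prokhorov distance, if the domain is bounded by `K`: uniformly in `q`, in
  `p` and in the mesh, without any regularity of the boundary.
* The law is jointly continuous in the domain, the approximation and the logarithm of the mesh,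
  uniformly in `q` and `p`.
* Each sequence of meshes has a subsequence along which the laws converge for all these domains and
  all their approximations simultaneously, and each family of limits is `1 / 3`-Hölder in the domain.
* If the laws converge along one sequence of meshes with ratios of consecutive terms tending to `1`
  (as `1 / n`), for a dense set of domains, then they converge for all domains and all
  approximations as `δ → 0`, and the limits are covariant under scaling.
* The limit points of each law form a compact connected set; if there are only countably many families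
  of limits, then the laws converge for all domains.

The proof uses only the monotonicity of the model in the boundary condition and its invariance under
translations: if `D ⊆ D' ⊆ D + v` in the sense of the order, then the sum over the boxes of the
differences of the probabilities that the wired cluster meets the box telescopes.

Definitions (`Pool.Agent.H950.FK`): `GD` (lattice domains), `GD.W`, `GD.Z`, `GD.We`, `GD.rnd`, `GD.E`,
`GD.cfg`, `GD.ncl`, `GD.wt`, `GD.mu`, `GD.P`, `GD.start`, `GD.stop`, `GD.walk`, `GD.len`, `pt`,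
`GD.curve`, `GD.trace` (`FK.Defs`); `Par`, `NC`, `GD.lawT`, `GD.lawN`, `GD.law` (`FK.Law`); `Dom`,
`Apx`, `Dom.lat`, `Dom.Bd`, `Near` (`FK.Dom`); `dil` (`FK.Tr`), `Dom.scale`, `LimPts`
(`FK.DomFam`); `St`, `face`, `nxt`, `orb` (`H984R3.Per.Defs`), `pl` (`H984R4.NP.Model`).
-/

set_option autoImplicit false

namespace Pool.Agent.Results.MP_b3e76a_pr.DomainHoelderAllQ

open MeasureTheory Filter Topology Pool.Agent.H950.FK

/-- Lévy-Prokhorov distance. -/
noncomputable def lp (μ ν : ProbabilityMeasure NC) : ℝ :=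
  levyProkhorovDist (μ : Measure NC) (ν : Measure NC)

/-- Sequences of meshes. -/
def Meshes (δ : ℕ → ℝ) : Prop := (∀ i, 0 < δ i) ∧ Tendsto δ atTop (𝓝 0)

/-- The lattice domains `G i` at the meshes `δ i` approximate `D`. -/
def Approx (D : Dom) (δ : ℕ → ℝ) (G : ℕ → GD) : Prop :=
  ∃ s : ℕ → ℝ, Tendsto s atTop (𝓝 0) ∧ ∀ i, Apx D (δ i) (s i) (G i)

/-- The laws converge to `ν` along `δ`, for all domains and all their approximations. -/
def IsLimit (π : Par) (δ : ℕ → ℝ) (ν : Dom → ProbabilityMeasure NC) : Prop :=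
  Meshes δ ∧ ∀ (D : Dom) (G : ℕ → GD), Approx D δ G →
    Tendsto (fun i => (G i).law π (δ i)) atTop (𝓝 (ν D))

theorem approx_lat (D : Dom) {δ : ℕ → ℝ} (hδ : Meshes δ) : Approx D δ (fun i => D.lat (δ i)) :=
  ⟨δ, hδ.2, fun i => D.lat_apx (hδ.1 i)⟩

theorem approx_dist (π : Par) {D : Dom} {δ : ℕ → ℝ} (hδ : Meshes δ) {G : ℕ → GD}
    (hG : Approx D δ G) : Tendsto (fun i => dist (fl (G i) π (δ i)) (fD π D (δ i))) atTop (𝓝 0) := by
  obtain ⟨s, hs, hA⟩ := hG
  obtain ⟨K, hK, hB⟩ := D.exists_bd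
  have h1 : Tendsto (fun i => 16 * (K + 3) * (max (s i) (δ i) + 0 + δ i) ^ (1/3 : ℝ)) atTop
      (𝓝 (16 * (K + 3) * (max 0 0 + 0 + 0) ^ (1/3 : ℝ))) := by
    apply Tendsto.const_mul
    apply Tendsto.rpow_const _ (Or.inr (by norm_num))
    exact ((hs.max hδ.2).add tendsto_const_nhds).add hδ.2
  rw [max_self, add_zero, add_zero, Real.zero_rpow (by norm_num), mul_zero] at h1
  refine squeeze_zero (fun i => dist_nonneg) (fun i => ?_) h1
  exact dom_lp mainT traceT (hδ.1 i) hB ((hA i).mono (le_max_left _ _))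
    ((D.lat_apx (hδ.1 i)).mono (le_max_right _ _)) (Near.refl D le_rfl)

theorem approx_tendsto (π : Par) {D : Dom} {δ : ℕ → ℝ} (hδ : Meshes δ) {G : ℕ → GD}
    (hG : Approx D δ G) {y : Yn} (hy : Tendsto (fun i => fD π D (δ i)) atTop (𝓝 y)) :
    Tendsto (fun i => (G i).law π (δ i)) atTop (𝓝 y.toMeasure) := by
  have h1 : Tendsto (fun i => fl (G i) π (δ i)) atTop (𝓝 y) := by
    rw [tendsto_iff_dist_tendsto_zero] at hy ⊢
    have h2 := (approx_dist π hδ hG).add hy
    rw [add_zero] at h2
    exact squeeze_zero (fun i => dist_nonneg) (fun i => dist_triangle _ _ _) h2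
  exact tendsto_iff.1 h1

theorem family (π : Par) {δ : ℕ → ℝ} (hδ : Meshes δ) : ∃ φ : ℕ → ℕ, StrictMono φ ∧
    ∃ ν : Dom → ProbabilityMeasure NC, IsLimit π (δ ∘ φ) ν := by
  obtain ⟨φ, hφ, h⟩ := (famD π).fam hδ.1 hδ.2
  choose y hy using h
  have hm : Meshes (δ ∘ φ) := ⟨fun i => hδ.1 _, hδ.2.comp hφ.tendsto_atTop⟩
  exact ⟨φ, hφ, fun D => (y D).toMeasure, hm, fun D G hG => approx_tendsto π hm hG (hy D)⟩

theorem limPts_family {π : Par} {D : Dom} {μ : ProbabilityMeasure NC} (h : μ ∈ LimPts π D) :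
    ∃ (δ : ℕ → ℝ) (ν : Dom → ProbabilityMeasure NC), IsLimit π δ ν ∧ ν D = μ := by
  rw [limPts_eq] at h
  obtain ⟨y, hy, rfl⟩ := h
  have h1 : ∀ i : ℕ, ∃ δ : ℝ, 0 < δ ∧ δ < 1 / ((i:ℝ) + 1) ∧
      dist (fD π D δ) y < 1 / ((i:ℝ) + 1) :=
    fun i => Pool.Agent.H950.EX.clu_iff.1 hy _ (by positivity) _ (by positivity)
  choose δ h2 h3 h4 using h1
  have h5 : Tendsto δ atTop (𝓝 0) := squeeze_zero (fun i => (h2 i).le) (fun i => (h3 i).le)
    tendsto_one_div_add_atTop_nhds_zero_nat
  obtain ⟨φ, hφ, ν, hν⟩ := family π ⟨h2, h5⟩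
  refine ⟨δ ∘ φ, ν, hν, ?_⟩
  have h6 : Tendsto (fun i => fD π D (δ (φ i))) atTop (𝓝 y) := by
    rw [tendsto_iff_dist_tendsto_zero]
    exact squeeze_zero (fun i => dist_nonneg) (fun i => (h4 (φ i)).le)
      (tendsto_one_div_add_atTop_nhds_zero_nat.comp hφ.tendsto_atTop)
  exact tendsto_nhds_unique (hν.2 D _ (approx_lat D hν.1))
    (approx_tendsto π hν.1 (approx_lat D hν.1) h6)

/-- The laws converge to `μ` as `δ → 0`, for all approximations of `D`. -/
def Converges (π : Par) (D : Dom) (μ : ProbabilityMeasure NC) : Prop :=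
  ∀ (δ : ℕ → ℝ) (G : ℕ → GD), Meshes δ → Approx D δ G →
    Tendsto (fun i => (G i).law π (δ i)) atTop (𝓝 μ)

theorem converges_of {π : Par} {D : Dom} {y : Yn} (h : Tendsto (fD π D) (𝓝[>] 0) (𝓝 y)) :
    Converges π D y.toMeasure := by
  intro δ G hδ hG
  apply approx_tendsto π hδ hG
  apply h.comp
  rw [tendsto_nhdsWithin_iff]
  exact ⟨hδ.2, Eventually.of_forall hδ.1⟩

theorem of_countable {π : Par}
    (h : {ν : Dom → ProbabilityMeasure NC | ∃ δ, IsLimit π δ ν}.Countable) :
    ∃ ν : Dom → ProbabilityMeasure NC, ∀ D, Converges π D (ν D) := by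
  have h1 : ∀ D, ∃ μ, Converges π D μ := by
    intro D
    obtain ⟨μ, hμ⟩ := limPts_dich π D ((h.image (fun ν => ν D)).mono (by
      intro μ hμ
      obtain ⟨δ, ν, h2, h3⟩ := limPts_family hμ
      exact ⟨ν, ⟨δ, h2⟩, h3⟩))
    exact ⟨μ, converges_of (y := LevyProkhorov.ofMeasure μ) (tendsto_iff.2 hμ)⟩
  choose ν hν using h1
  exact ⟨ν, hν⟩

theorem reduction {π : Par} {δ : ℕ → ℝ} (hδ : Meshes δ)
    (hr : Tendsto (fun i => δ (i + 1) / δ i) atTop (𝓝 1)) {T : Set Dom}
    (hT : ∀ D : Dom, ∀ ε > 0, ∃ D' ∈ T, Near ε D D')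
    (hc : ∀ D ∈ T, ∃ μ, Tendsto (fun i => (D.lat (δ i)).law π (δ i)) atTop (𝓝 μ)) :
    ∃ ν : Dom → ProbabilityMeasure NC, (∀ D, Converges π D (ν D)) ∧
      ∀ (c : ℝ) (hc : 0 < c) (D : Dom),
        ν (D.scale c hc) = (ν D).map (dil_cont c).measurable.aemeasurable := by
  have h1 : ∀ D : Dom, ∃ y : Yn, Tendsto (fD π D) (𝓝[>] 0) (𝓝 y) := by
    intro D
    exact (famD π).full hδ.1 hδ.2 hr D (fun ε hε => by
      obtain ⟨D', h2, h3⟩ := hT D ε hε
      obtain ⟨μ, hμ⟩ := hc D' h2
      exact ⟨D', h3, _, tendsto_iff.2 hμ⟩)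
  choose y hy using h1
  refine ⟨fun D => (y D).toMeasure, fun D => converges_of (hy D), fun c hc D => ?_⟩
  have h2 := lim_scale hc (tendsto_iff.1 (hy D))
  exact tendsto_nhds_unique (tendsto_iff.1 (hy (D.scale c hc))) h2

/-- **The law of the FK interface is `1 / 3`-Hölder continuous in the domain, uniformly in the mesh,
for all `q ≥ 1` and all `p`.** -/
theorem result :
    -- the standard approximations
    (∀ (D : Dom) (δ : ℝ), 0 < δ → Apx D δ δ (D.lat δ)) ∧
    -- two domains at the same mesh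
    (∀ (π : Par) (D D' : Dom) (K s t δ : ℝ) (G G' : GD), D.Bd K → 0 < δ → Near t D D' →
      Apx D δ s G → Apx D' δ s G' →
      lp (G.law π δ) (G'.law π δ) ≤ 16 * (K + 3) * (s + t + δ) ^ (1/3 : ℝ)) ∧
    -- joint continuity in the domain, the approximation and the mesh, uniformly in `p`, `q`
    (∀ (D : Dom) (ε : ℝ), 0 < ε → ∃ ρ : ℝ, 0 < ρ ∧ ∀ (π : Par) (D' : Dom) (δ δ' : ℝ) (G G' : GD),
      Near ρ D D' → 0 < δ → 0 < δ' → δ' ≤ ρ → |δ - δ'| ≤ ρ * δ' → Apx D δ ρ G → Apx D' δ' ρ G' →
      lp (G.law π δ) (G'.law π δ') ≤ ε) ∧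
    ∀ π : Par,
    -- simultaneous subsequential limits, for all domains and all approximations
    (∀ δ : ℕ → ℝ, Meshes δ → ∃ φ : ℕ → ℕ, StrictMono φ ∧
      ∃ ν : Dom → ProbabilityMeasure NC, IsLimit π (δ ∘ φ) ν) ∧
    -- they are Hölder continuous in the domain
    (∀ (δ : ℕ → ℝ) (ν : Dom → ProbabilityMeasure NC), IsLimit π δ ν →
      ∀ (D D' : Dom) (K t : ℝ), D.Bd K → Near t D D' →
        lp (ν D) (ν D') ≤ 16 * (K + 3) * t ^ (1/3 : ℝ)) ∧
    -- convergence along slowly varying meshes, for a dense set of domains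
    (∀ δ : ℕ → ℝ, Meshes δ → Tendsto (fun i => δ (i + 1) / δ i) atTop (𝓝 1) → ∀ T : Set Dom,
      (∀ D : Dom, ∀ ε > 0, ∃ D' ∈ T, Near ε D D') →
      (∀ D ∈ T, ∃ μ, Tendsto (fun i => (D.lat (δ i)).law π (δ i)) atTop (𝓝 μ)) →
      ∃ ν : Dom → ProbabilityMeasure NC, (∀ D, Converges π D (ν D)) ∧
        ∀ (c : ℝ) (hc : 0 < c) (D : Dom),
          ν (D.scale c hc) = (ν D).map (dil_cont c).measurable.aemeasurable) ∧
    -- limit points
    (∀ D : Dom, IsCompact (LimPts π D) ∧ IsConnected (LimPts π D)) ∧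
    ({ν : Dom → ProbabilityMeasure NC | ∃ δ, IsLimit π δ ν}.Countable →
      ∃ ν : Dom → ProbabilityMeasure NC, ∀ D, Converges π D (ν D)) := by
  refine ⟨fun D δ hδ => D.lat_apx hδ, ?_, ?_, fun π => ⟨fun δ hδ => family π hδ, ?_,
    fun δ hδ hr T hT hc => reduction hδ hr hT hc,
    fun D => ⟨limPts_compact π D, limPts_conn π D⟩, of_countable⟩⟩
  · intro π D D' K s t δ G G' hK hδ hn hA hA'
    exact dom_lp mainT traceT hδ hK hA hA' hn
  · intro D ε hε
    obtain ⟨ρ, hρ, h⟩ := joint pth mainT traceT D hε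
    exact ⟨ρ, hρ, fun π D' δ δ' G G' a b c d e f g => h π D' δ δ' G G' a b c d e f g⟩
  · intro δ ν hν D D' K t hK hn
    have h1 := tendsto_iff.2 (hν.2 D _ (approx_lat D hν.1))
    have h2 := tendsto_iff.2 (hν.2 D' _ (approx_lat D' hν.1))
    refine holder_lim' (l := atTop) (k := 2) (by norm_num) (Eventually.of_forall hν.1.1) hν.1.2
      (F := fD π D) (G := fD π D') h1 h2 (fun δ hδ => ?_)
    refine (dom_lp mainT traceT hδ hK (D.lat_apx hδ) (D'.lat_apx hδ) hn).trans (le_of_eq ?_)
    congr 2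
    ring

end Pool.Agent.Results.MP_b3e76a_pr.DomainHoelderAllQ
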