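import Pool.Agent.H966.N9.Fin
import Pool.Agent.H966.N9.A
import Pool.Agent.H966.N9.G
import Pool.Agent.H966.N9.C
import Pool.Agent.H966.N9.D
import Pool.Agent.H966.N9.EA
import Pool.Agent.H966.N9.EB
import Pool.Agent.H966.N9.FA
import Pool.Agent.H966.N9.FB
import Pool.Agent.H966.N9.KA
import Pool.Agent.H966.N9.KB
import Pool.Agent.H966.N9.TV
import Pool.Agent.H966.N9.T
import Pool.Agent.H966.N9.L1
import Pool.Agent.H966.N9.L3
import Pool.Agent.H966.N5.G
import Pool.Agent.H966.N5.A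
import Pool.Agent.H966.N5.C
import Pool.Agent.H966.N5.D
import Pool.Agent.H966.N5.E1
import Pool.Agent.H966.N5.F1
import Pool.Agent.H966.N5.K
import Pool.Agent.H966.N5.Id
import Pool.Agent.H966.N3.D
import Pool.Graph.R_pool_sql_team_seeded_3dad9d7b.NH38.Fork.UG

/-!
Critical bond percolation on `ℤ²` (the random cluster model with `q = 1`, `p = 1/2`): a local limit
theorem for the exits of the exploration path through the left and right lines. The exploration path
(interface between the open cluster of the left bank and the dual cluster of the rest of the boundary)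
in the plane cut along a half-infinite rectangle (slit) of width `γ` is started at the left corner of
the slit (left bank open, ledge and right bank dual-open). When its left side reaches for the first
time the line `X = -α`, before the path has visited the right bank of the slit, its right extent is a
random variable; when its right side reaches for the first time the line `X = γ + β`, before the path
has visited the right bank, its left extent is a random variable. We prove that the probability mass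
functions of these two random variables are, at macroscopic points, the mesh times explicit algebraic
functions `eL α γ β` and `eR α γ β`, which are the derivatives of Cardy's formula, in terms of the
conformal images of the corners of the slit in the strip `-α < X < γ + β`: they are the densities of
SLE(6). The exploration path has these densities at the level of pairs of columns (local limit
theorem), not only in law, and the convergence holds in total variation.

Coordinates: the vertex `(u,v)` of `ℤ²` at mesh `δ` sits at `X + iY`, `X = δ (u - v)`,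
`Y = δ (u + v)` (rotation by 45 degrees). The column of a point is `u - v`, its height `u + v`.
-/

namespace Pool.Agent.Results.MP_b3e76a_pr.ExitLocalLimit

open Pool.Agent.H966
open MeasureTheory Filter Topology Set

/-- edges of `ℤ²`: `(u,v,false)` joins `(u,v)` and `(u+1,v)`; `(u,v,true)` joins `(u,v)` and
`(u,v+1)`. -/
abbrev Edge := ℤ × ℤ × Bool

/-- configurations (`true` = open) -/
abbrev Conf := Edge → Bool

/-- `x` and `y` are the two ends of an open edge -/
def OpenAdj (ω : Conf) (x y : ℤ × ℤ) : Prop :=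
  (y = (x.1 + 1, x.2) ∧ ω (x.1, x.2, false) = true) ∨
  (x = (y.1 + 1, y.2) ∧ ω (y.1, y.2, false) = true) ∨
  (y = (x.1, x.2 + 1) ∧ ω (x.1, x.2, true) = true) ∨
  (x = (y.1, y.2 + 1) ∧ ω (y.1, y.2, true) = true)

/-- bond percolation at `p = 1/2`: independent fair coins on the edges -/
noncomputable def perc : Measure Conf :=
  Measure.infinitePi (fun _ : Edge => (PMF.uniformOfFintype Bool).toMeasure)

/-! ## The exploration path -/

/-- A state `(x, d)` of the exploration path: the path passes next to the vertex `x`, which is on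
its right, and looks at the edge which leaves `x` in the direction `d`. -/
abbrev State := (ℤ × ℤ) × Fin 4

/-- the four directions, counterclockwise: `0` = right, `1` = up, `2` = left, `3` = down -/
def vec (d : Fin 4) : ℤ × ℤ :=
  match d with
  | 0 => (1, 0)
  | 1 => (0, 1)
  | 2 => (-1, 0)
  | 3 => (0, -1)

/-- the slit: columns `[0,m]`, heights `≥ 0` -/
def InSlit (m : ℕ) (x : ℤ × ℤ) : Prop := 0 ≤ x.1 - x.2 ∧ x.1 - x.2 ≤ m ∧ 0 ≤ x.1 + x.2

/-- the left bank of the slit: the vertices `(k,k)`, `k ≥ 0` (column `0`, height `≥ 0`) -/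
def LeftBank (x : ℤ × ℤ) : Prop := x.1 = x.2 ∧ 0 ≤ x.1

/-- the right bank of the slit: column `m`, height `≥ 0` -/
def RightBank (m : ℕ) (x : ℤ × ℤ) : Prop := x.1 - x.2 = m ∧ 0 ≤ x.1 + x.2

/-- the edge `{x,y}` is open and is not an edge of the slit -/
def SAdj (m : ℕ) (ω : Conf) (x y : ℤ × ℤ) : Prop := OpenAdj ω x y ∧ ¬ (InSlit m x ∧ InSlit m y)

open Classical in
/-- One step of the exploration path in the configuration `ω`: if the edge it looks at is open and
not in the slit, the path goes along this edge and turns counterclockwise (`d + 1`); otherwise it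
turns clockwise around the vertex (`d + 3 = d - 1`). The left bank is open: at a vertex of the left
bank, when the path looks at the slit (`d = 0`), it goes on to the next vertex `x + (1,1)` of the left
bank. -/
noncomputable def step (m : ℕ) (ω : Conf) (s : State) : State :=
  if LeftBank s.1 ∧ s.2 = 0 then (s.1 + (1, 1), 2)
  else if SAdj m ω s.1 (s.1 + vec s.2) then (s.1 + vec s.2, s.2 + 1)
  else (s.1, s.2 + 3)

/-- the exploration path: it starts at the left corner of the slit, at the lowest vertex `(0,0)` of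
the left bank, looking down -/
noncomputable def path (m : ℕ) (ω : Conf) (n : ℕ) : State := (step m ω)^[n] ((0, 0), 3)

/-- the column of the dual vertex (centre of a face) on the left of the path, which is
`x + (1/2,1/2)`, `x + (-1/2,1/2)`, `x + (-1/2,-1/2)`, `x + (1/2,-1/2)` for `d = 0, 1, 2, 3` -/
def leftCol (s : State) : ℤ :=
  match s.2 with
  | 0 => s.1.1 - s.1.2
  | 1 => s.1.1 - s.1.2 - 1
  | 2 => s.1.1 - s.1.2
  | 3 => s.1.1 - s.1.2 + 1

/-- the column of the vertex on the right of the path -/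
def rightCol (s : State) : ℤ := s.1.1 - s.1.2

/-! ## The extents -/

/-- the left extent up to the time `n`: the greatest distance of the left side of the path to the left
bank (column `0`), on the left of it -/
noncomputable def leftExtent (m : ℕ) (ω : Conf) (n : ℕ) : ℤ :=
  (Finset.range (n+1)).sup' ⟨0, by simp⟩ (fun j => -leftCol (path m ω j))

/-- the right extent up to the time `n`: the greatest distance of the right side of the path to the
right bank (column `m`), on the right of it -/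
noncomputable def rightExtent (m : ℕ) (ω : Conf) (n : ℕ) : ℤ :=
  (Finset.range (n+1)).sup' ⟨0, by simp⟩ (fun j => rightCol (path m ω j) - m)

/-- `n` is the time at which the left side of the path reaches the left line (column `-a`), and the
path has not visited the right bank up to this time -/
def ReachLeft (a m : ℕ) (ω : Conf) (n : ℕ) : Prop :=
  leftCol (path m ω n) ≤ -(a : ℤ) ∧ (∀ j < n, -(a : ℤ) < leftCol (path m ω j)) ∧
    ∀ j ≤ n, ¬ RightBank m (path m ω j).1

/-- `n` is the time at which the right side of the path reaches the right line (column `m + b`), and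
the path has not visited the right bank up to this time -/
def ReachRight (m b : ℕ) (ω : Conf) (n : ℕ) : Prop :=
  (m : ℤ) + b ≤ rightCol (path m ω n) ∧ (∀ j < n, rightCol (path m ω j) < (m : ℤ) + b) ∧
    ∀ j ≤ n, ¬ RightBank m (path m ω j).1

/-- the path reaches the left line before the right bank; when it reaches it, its right extent is `b`
or `b + 1` -/
def LeftExit (a m b : ℕ) : Set Conf :=
  {ω | ∃ n, ReachLeft a m ω n ∧ (rightExtent m ω n = b ∨ rightExtent m ω n = b + 1)}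

/-- the path reaches the right line before the right bank; when it reaches it, its left extent is `a`
or `a + 1` -/
def RightExit (a m b : ℕ) : Set Conf :=
  {ω | ∃ n, ReachRight m b ω n ∧ (leftExtent m ω n = a ∨ leftExtent m ω n = a + 1)}

/-! ## Cardy's function, the conformal map -/

/-- Cardy's function: the normalised primitive of `(t(1-t))^(-2/3)` -/
noncomputable def cardy (x : ℝ) : ℝ :=
  (∫ t in (0:ℝ)..x, (t*(1-t))^(-(2:ℝ)/3)) / ∫ t in (0:ℝ)..1, (t*(1-t))^(-(2:ℝ)/3)

/-- the strip `-α < X < γ + β` without the slit `{0 ≤ X ≤ γ, Y ≥ 0}` -/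
def Dom (α γ β : ℝ) : Set ℂ := {w | -α < w.re ∧ w.re < γ + β ∧ (0 ≤ w.re → w.re ≤ γ → w.im < 0)}

/-- `f` is an orientation reversing conformal map of the upper half-plane onto the strip
without the slit,
with the boundary correspondence: left wall, inner wall of the left arm, left corner of the slit,
ledge (bottom of the slit), right corner of the slit, inner wall of the right arm, right wall =
`(-∞,0)`, `(0,x)`, `x`, `(x,x')`, `x'`, `(x',1)`, `(1,∞)` (`0`, `1` and `∞` correspond to the ends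
of the left arm, of the right arm and of the lower strip). -/
structure Uniformizes (α γ β x x' : ℝ) (f : ℂ → ℂ) : Prop where
  /-- the complex conjugate of `f` is holomorphic in the upper half-plane -/
  holo : DifferentiableOn ℂ (fun z => (starRingEnd ℂ) (f z)) {z | 0 < z.im}
  /-- `f` is a bijection of the upper half-plane onto the strip without the slit -/
  bij : BijOn f {z | 0 < z.im} (Dom α γ β)
  /-- `f` is continuous up to the boundary (without `0` and `1`) -/
  cont : ContinuousOn f {z : ℂ | 0 ≤ z.im ∧ z ≠ 0 ∧ z ≠ 1}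
  /-- `(-∞,0)` is mapped to the left wall -/
  leftWall : BijOn (fun t : ℝ => f t) (Iio 0) {w | w.re = -α}
  /-- `(0,x)` is mapped to the inner wall of the left arm -/
  innerWall : BijOn (fun t : ℝ => f t) (Ioo 0 x) {w | w.re = 0 ∧ 0 < w.im}
  /-- `x` is mapped to the left corner -/
  corner : f (x : ℂ) = 0
  /-- `(x,x')` is mapped to the ledge -/
  ledge : BijOn (fun t : ℝ => f t) (Ioo x x') {w | w.im = 0 ∧ 0 < w.re ∧ w.re < γ}
  /-- `x'` is mapped to the right corner -/
  corner' : f (x' : ℂ) = (γ : ℂ)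
  /-- `(x',1)` is mapped to the inner wall of the right arm -/
  innerWall' : BijOn (fun t : ℝ => f t) (Ioo x' 1) {w | w.re = γ ∧ 0 < w.im}
  /-- `(1,∞)` is mapped to the right wall -/
  rightWall : BijOn (fun t : ℝ => f t) (Ioi 1) {w | w.re = γ + β}

/-! ## The conformal images of the corners, the densities -/

/-- the conformal images `x < x'` of the corners of the slit in the strip `-α < X < γ + β`: the
solutions of `x x' = (α/S)²`, `(1-x)(1-x') = (β/S)²`, `S = α + γ + β` -/
noncomputable def lo (α γ β : ℝ) : ℝ := (1 + (α/(α+γ+β))^2 - (β/(α+γ+β))^2 -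
  √((1 + (α/(α+γ+β))^2 - (β/(α+γ+β))^2)^2 - 4*(α/(α+γ+β))^2)) / 2

/-- the image `x'` of the right corner -/
noncomputable def hi (α γ β : ℝ) : ℝ := (1 + (α/(α+γ+β))^2 - (β/(α+γ+β))^2 +
  √((1 + (α/(α+γ+β))^2 - (β/(α+γ+β))^2)^2 - 4*(α/(α+γ+β))^2)) / 2

/-- Cardy's formula: the probability that SLE(6) leaves the strip minus the slit first through the
left line -/
noncomputable def leftLaw (α γ β : ℝ) : ℝ := 1 - cardy (lo α γ β / hi α γ β)

/-- Cardy's formula: the probability that SLE(6) leaves the strip minus the slit first through the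
right line -/
noncomputable def rightLaw (α γ β : ℝ) : ℝ := cardy (lo α γ β / hi α γ β) -
  cardy (lo α γ β * (1 - hi α γ β) / (hi α γ β * (1 - lo α γ β)))

/-- the constant `B(1/3,1/3)` -/
noncomputable def B : ℝ := ∫ t in (0:ℝ)..1, (t*(1-t))^(-(2:ℝ)/3)

/-- the density of the right extent when the path reaches the left line -/
noncomputable def eL (α γ β : ℝ) : ℝ := 2 / B * α^((2:ℝ)/3) * (α + γ + β)^(-(1:ℝ)/3) *
  (γ * (γ + 2*α))^((1:ℝ)/6) * ((γ + 2*β) * (γ + 2*α + 2*β))^(-(5:ℝ)/6)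

/-- the density of the left extent when the path reaches the right line -/
noncomputable def eR (α γ β : ℝ) : ℝ := 2 / B * α^(-(1:ℝ)/3) * (γ * (γ + 2*β))^((1:ℝ)/6) *
  ((γ + 2*α) * (γ + 2*α + 2*β))^(-(5:ℝ)/6) *
  ((γ + 2*α + β) * (α + γ + β)^(-(1:ℝ)/3) - β^((2:ℝ)/3))

/-! ## Proofs -/

theorem isProb : IsProbabilityMeasure perc :=
  inferInstanceAs (IsProbabilityMeasure Pool.Agent.H988R2.Perc.perc)

attribute [local instance] isProb

theorem left_lt_iff {m : ℕ} {ω : Conf} {n : ℕ} {a : ℤ} :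
    leftExtent m ω n < a ↔ ∀ j ≤ n, -a < leftCol (path m ω j) := by
  unfold leftExtent
  rw [Finset.sup'_lt_iff]
  constructor
  · intro h1 j hj
    have g1 := h1 j (Finset.mem_range.2 (by omega))
    linarith
  · intro h j hj
    have := h j (by rw [Finset.mem_range] at hj; omega)
    linarith

theorem right_lt_iff {m : ℕ} {ω : Conf} {n : ℕ} {b : ℤ} :
    rightExtent m ω n < b ↔ ∀ j ≤ n, rightCol (path m ω j) < (m : ℤ) + b := by
  unfold rightExtent
  rw [Finset.sup'_lt_iff]
  constructor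
  · intro h1 j hj
    have g1 := h1 j (Finset.mem_range.2 (by omega))
    linarith
  · intro h j hj
    have := h j (by rw [Finset.mem_range] at hj; omega)
    linarith

theorem left_iff (a m b : ℕ) (ω : Conf) : ω ∈ EX.ExitLeft a m b ↔
    ∃ n, ReachLeft a m ω n ∧ rightExtent m ω n < b := by
  classical
  constructor
  · rintro ⟨n, h1, h2⟩
    have hex : ∃ n, leftCol (path m ω n) ≤ -(a : ℤ) := ⟨n, h1⟩
    have hle : Nat.find hex ≤ n := Nat.find_min' hex h1
    refine ⟨Nat.find hex, ⟨Nat.find_spec hex, fun j hj => not_le.1 (Nat.find_min hex hj),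
      fun j hj => (h2 j (hj.trans hle)).1⟩, ?_⟩
    rw [right_lt_iff]
    exact fun j hj => (h2 j (hj.trans hle)).2
  · rintro ⟨n, h1, h2⟩
    rw [right_lt_iff] at h2
    exact ⟨n, h1.1, fun j hj => ⟨h1.2.2 j hj, h2 j hj⟩⟩

theorem right_iff (a m b : ℕ) (ω : Conf) : ω ∈ EX.ExitRight a m b ↔
    ∃ n, ReachRight m b ω n ∧ leftExtent m ω n < a := by
  classical
  constructor
  · rintro ⟨n, h1, h2⟩
    have hex : ∃ n, (m : ℤ) + b ≤ rightCol (path m ω n) := ⟨n, h1⟩
    have hle : Nat.find hex ≤ n := Nat.find_min' hex h1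
    refine ⟨Nat.find hex, ⟨Nat.find_spec hex, fun j hj => not_le.1 (Nat.find_min hex hj),
      fun j hj => (h2 j (hj.trans hle)).2⟩, ?_⟩
    rw [left_lt_iff]
    exact fun j hj => (h2 j (hj.trans hle)).1
  · rintro ⟨n, h1, h2⟩
    rw [left_lt_iff] at h2
    exact ⟨n, h1.1, fun j hj => ⟨h2 j hj, h1.2.2 j hj⟩⟩

theorem reachLeft_unique {a m : ℕ} {ω : Conf} {n n' : ℕ} (h : ReachLeft a m ω n)
    (h' : ReachLeft a m ω n') : n = n' := by
  rcases lt_trichotomy n n' with h1 | h1 | h1
  · exact absurd h.1 (not_le.2 (h'.2.1 n h1))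
  · exact h1
  · exact absurd h'.1 (not_le.2 (h.2.1 n' h1))

theorem reachRight_unique {m b : ℕ} {ω : Conf} {n n' : ℕ} (h : ReachRight m b ω n)
    (h' : ReachRight m b ω n') : n = n' := by
  rcases lt_trichotomy n n' with h1 | h1 | h1
  · exact absurd h.1 (not_le.2 (h'.2.1 n h1))
  · exact h1
  · exact absurd h'.1 (not_le.2 (h.2.1 n' h1))

theorem leftExit_eq (a m b : ℕ) : LeftExit a m b = EX.ExitLeft a m (b+2) \ EX.ExitLeft a m b := by
  ext ω
  rw [Set.mem_sdiff, left_iff, left_iff]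
  constructor
  · rintro ⟨n, h1, h2⟩
    refine ⟨⟨n, h1, by push_cast; omega⟩, ?_⟩
    rintro ⟨n', h1', h2'⟩
    rw [reachLeft_unique h1' h1] at h2'
    omega
  · rintro ⟨⟨n, h1, h2⟩, h4⟩
    push_cast at h2
    refine ⟨n, h1, ?_⟩
    by_contra h5
    exact h4 ⟨n, h1, by omega⟩

theorem rightExit_eq (a m b : ℕ) :
    RightExit a m b = EX.ExitRight (a+2) m b \ EX.ExitRight a m b := by
  ext ω
  rw [Set.mem_sdiff, right_iff, right_iff]
  constructor
  · rintro ⟨n, h1, h2⟩
    refine ⟨⟨n, h1, by push_cast; omega⟩, ?_⟩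
    rintro ⟨n', h1', h2'⟩
    rw [reachRight_unique h1' h1] at h2'
    omega
  · rintro ⟨⟨n, h1, h2⟩, h4⟩
    push_cast at h2
    refine ⟨n, h1, ?_⟩
    by_contra h5
    exact h4 ⟨n, h1, by omega⟩

theorem leftExit_real (a m b : ℕ) : perc.real (LeftExit a m b) =
    perc.real (EX.ExitLeft a m (b+2)) - perc.real (EX.ExitLeft a m b) := by
  rw [leftExit_eq]
  refine measureReal_sdiff ?_ (EX.meas_left a m b)
  intro ω h
  rw [left_iff] at h ⊢
  obtain ⟨n, h1, h2⟩ := h
  exact ⟨n, h1, by push_cast; omega⟩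

theorem rightExit_real (a m b : ℕ) : perc.real (RightExit a m b) =
    perc.real (EX.ExitRight (a+2) m b) - perc.real (EX.ExitRight a m b) := by
  rw [rightExit_eq]
  refine measureReal_sdiff ?_ (EX.meas_right a m b)
  intro ω h
  rw [right_iff] at h ⊢
  obtain ⟨n, h1, h2⟩ := h
  exact ⟨n, h1, by push_cast; omega⟩

/-! ## The densities -/

theorem B_eq : B = Pool.Agent.NH38.Step.A2.BB := by
  unfold B Pool.Agent.NH38.Step.A2.BB
  refine intervalIntegral.integral_congr fun t _ => ?_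
  show (t * (1 - t)) ^ (-(2:ℝ)/3) = (t * (1 - t)) ^ (-(2/3) : ℝ)
  norm_num

theorem B_pos : 0 < B := by
  rw [B_eq]
  exact Pool.Agent.NH38.Step.A2.BB_pos

theorem eL_pos {α γ β : ℝ} (hα : 0 < α) (hγ : 0 < γ) (hβ : 0 < β) : 0 < eL α γ β := by
  have hB := B_pos
  unfold eL
  positivity

theorem eR_pos {α γ β : ℝ} (hα : 0 < α) (hγ : 0 < γ) (hβ : 0 < β) : 0 < eR α γ β := by
  have hB := B_pos
  have hS : 0 < α + γ + β := by positivity
  have h1 : β^((2:ℝ)/3) < (α + γ + β)^((2:ℝ)/3) :=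
    Real.rpow_lt_rpow hβ.le (by linarith) (by norm_num)
  have h2 : (α + γ + β)^((2:ℝ)/3) = (α + γ + β) * (α + γ + β)^(-(1:ℝ)/3) := by
    rw [← Real.rpow_one_add' hS.le (by norm_num)]
    norm_num
  have h3 : (α + γ + β) * (α + γ + β)^(-(1:ℝ)/3) ≤
      (γ + 2*α + β) * (α + γ + β)^(-(1:ℝ)/3) :=
    mul_le_mul_of_nonneg_right (by linarith) (by positivity)
  have h4 : 0 < (γ + 2*α + β) * (α + γ + β)^(-(1:ℝ)/3) - β^((2:ℝ)/3) := by linarith
  unfold eR
  positivity

theorem eL_eq {α γ β : ℝ} : eL α γ β = -N9.kA β γ α := by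
  unfold eL N9.kA
  rw [B_eq, neg_neg, show β + γ + α = α + γ + β by ring, show γ + 2*β + 2*α = γ + 2*α + 2*β by ring]

theorem eR_eq {α γ β : ℝ} (hα : 0 < α) (hγ : 0 < γ) (hβ : 0 < β) :
    eR α γ β = N9.kB β γ α - N5.hh α γ β := by
  unfold eR N9.kB N5.hh
  rw [B_eq, show β + γ + α = α + γ + β by ring, show γ + 2*β + 2*α = γ + 2*α + 2*β by ring,
    Real.mul_rpow hγ.le (by positivity), Real.mul_rpow (x := γ + 2*α) (by positivity) (by positivity)]
  ring

theorem gk_eq (α γ β : ℝ) : N3.Gk (β/(β+γ+α)) (α/(β+γ+α)) = cardy (lo α γ β / hi α γ β) := by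
  unfold N3.Gk
  rw [Pool.Agent.H965.K3.x1_swap ((α/(β+γ+α))^2) ((β/(β+γ+α))^2),
    show Pool.Agent.NH38.Fork.x2 ((β/(β+γ+α))^2) ((α/(β+γ+α))^2) =
      1 - Pool.Agent.NH38.Fork.x1 ((α/(β+γ+α))^2) ((β/(β+γ+α))^2) by
      rw [Pool.Agent.H965.K3.x1_swap ((β/(β+γ+α))^2) ((α/(β+γ+α))^2)]; ring,
    sub_sub_cancel, sub_sub_cancel, show β + γ + α = α + γ + β by ring]
  rfl

theorem der_left {α γ β : ℝ} (hα : 0 < α) (hγ : 0 < γ) (hβ : 0 < β) :
    HasDerivAt (fun t => leftLaw α γ t) (eL α γ β) β := by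
  have h1 := (N9.t_KA β γ α hβ hγ hα).const_sub 1
  rw [eL_eq]
  refine h1.congr_of_eventuallyEq (Eventually.of_forall fun t => ?_)
  show leftLaw α γ t = 1 - N3.Gk (t/(t+γ+α)) (α/(t+γ+α))
  rw [gk_eq]
  rfl

theorem der_right {α γ β : ℝ} (hα : 0 < α) (hγ : 0 < γ) (hβ : 0 < β) :
    HasDerivAt (fun t => rightLaw t γ β) (eR α γ β) α := by
  have h1 := (N9.t_KB β γ α hβ hγ hα).sub (N5.t_K1 α γ β hα hγ hβ)
  rw [eR_eq hα hγ hβ]
  refine h1.congr_of_eventuallyEq (Eventually.of_forall fun t => ?_)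
  show rightLaw t γ β = N3.Gk (β/(β+γ+t)) (t/(β+γ+t)) - N1.Gc (t/(t+γ+β)) (β/(t+γ+β))
  rw [gk_eq]
  rfl

/-! ## The limits -/

theorem Xi : N5.S_xi := N5.t_A Pool.Agent.NH38.Fork.t_sE N3.t_dE Pool.Agent.NH38.Fork.t_KE

theorem Ze : N9.S_ze := N9.t_A Pool.Agent.NH38.Fork.t_sE N3.t_dE Pool.Agent.NH38.Fork.t_KE

theorem Lim1 : N5.S_Lim1 := N5.t_E1 N5.t_g N5.t_G1 N5.t_G2 N5.t_D2
  (fun a b N ρ σ hS => N5.t_C2 Xi a b N ρ σ hS)
  (fun a b N ρ σ hS l l' => (N5.t_C1 Xi a b N ρ σ hS l l').1)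

theorem LimA : N9.S_LimA := N9.t_EA N9.t_g N9.t_G1 N9.t_G2 N9.t_D2
  (fun a b N ρ σ hS => N9.t_C2A Ze a b N ρ σ hS)
  (fun a b N ρ σ hS l l' => N9.t_CA Ze a b N ρ σ hS l l')

theorem LimB : N9.S_LimB := N9.t_EB N9.t_g N9.t_G1 N9.t_G2 N9.t_D2
  (fun a b N ρ σ hS => N9.t_C2B Xi a b N ρ σ hS)
  (fun a b N ρ σ hS l l' => N9.t_CB Xi a b N ρ σ hS l l')

theorem S4 : T1.S1_F4 := T1.t1_F4 T1.t1_WI

theorem S34 : Pool.Agent.H965.K3.S3_F4 := Pool.Agent.H965.K3.t3_F4'

variable {α γ β : ℝ} {δ : ℕ → ℝ} {a m b : ℕ → ℕ}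

theorem lim_leftExit (W : N5.Wd α γ β δ a m b) :
    Tendsto (fun n => perc.real (LeftExit (a n) (m n) (b n)) / (2 * δ n)) atTop
      (𝓝 (eL α γ β)) := by
  have h1 := N9.lltA LimA (N9.idA S34 N9.t_D1 N9.t_FA N9.t_KA) W
  rw [eL_eq]
  refine h1.congr fun n => ?_
  rw [leftExit_real]
  rfl

theorem lim_rightExit (W : N5.Wd α γ β δ a m b) :
    Tendsto (fun n => perc.real (RightExit (a n) (m n) (b n)) / (2 * δ n)) atTop
      (𝓝 (eR α γ β)) := by
  have h1 := N9.lltB LimB (N9.idB S34 N9.t_D1 N9.t_FB N9.t_KB)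
    (N5.llt1 Lim1 (N5.id1 S4 N5.t_D1 N5.t_F1 N5.t_K1) W) W
  rw [eR_eq W.hα W.hγ W.hβ]
  refine h1.congr fun n => ?_
  rw [rightExit_real]
  rfl

/-! ## Total variation -/

theorem rightExit_disj (m b : ℕ) {k l : ℕ} (hkl : k ≠ l) :
    Disjoint (RightExit (2*k+1) m b) (RightExit (2*l+1) m b) := by
  rw [Set.disjoint_left]
  rintro ω ⟨n, h1, h2⟩ ⟨n', h1', h2'⟩
  rw [reachRight_unique h1' h1] at h2'
  apply hkl
  push_cast at h2 h2'
  omega

theorem leftExit_disj (a m : ℕ) {k l : ℕ} (hkl : k ≠ l) :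
    Disjoint (LeftExit a m (2*k)) (LeftExit a m (2*l)) := by
  rw [Set.disjoint_left]
  rintro ω ⟨n, h1, h2⟩ ⟨n', h1', h2'⟩
  rw [reachLeft_unique h1' h1] at h2'
  apply hkl
  push_cast at h2 h2'
  omega

theorem meas_rightExit (a m b : ℕ) : MeasurableSet (RightExit a m b) := by
  rw [rightExit_eq]
  exact (EX.meas_right _ _ _).diff (EX.meas_right _ _ _)

theorem meas_leftExit (a m b : ℕ) : MeasurableSet (LeftExit a m b) := by
  rw [leftExit_eq]
  exact (EX.meas_left _ _ _).diff (EX.meas_left _ _ _)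

theorem col_rel (s : State) : rightCol s - 1 ≤ leftCol s ∧ leftCol s ≤ rightCol s + 1 :=
  EX.col_rel s

theorem rightExit_sub {a m b : ℕ} (k : ℕ) (ha : 1 ≤ a) (hb : 1 ≤ b) :
    RightExit (2*k+1) m b ⊆ EX.ExitRight a m b ∪ EX.ExitLeft a m b := by
  rintro ω ⟨n, h1, -⟩
  by_cases h : leftExtent m ω n < a
  · exact Or.inl ((right_iff a m b ω).2 ⟨n, h1, h⟩)
  · right
    rw [left_lt_iff] at h
    push Not at h
    obtain ⟨j, hj, hj2⟩ := h
    have hjn : j < n := by
      rcases Nat.lt_or_eq_of_le hj with h3 | h3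
      · exact h3
      · exfalso
        rw [h3] at hj2
        have h4 := h1.1
        have h5 := col_rel (path m ω n)
        omega
    exact ⟨j, hj2, fun i hi => ⟨h1.2.2 i (by omega), h1.2.1 i (by omega)⟩⟩

theorem rightExit_sum {a m b : ℕ} (ha : 1 ≤ a) (hb : 1 ≤ b) (s : Finset ℕ) :
    ∑ k ∈ s, perc.real (RightExit (2*k+1) m b) ≤
      perc.real (EX.ExitRight a m b) + perc.real (EX.ExitLeft a m b) := by
  rw [← measureReal_biUnion_finset (μ := perc) (f := fun k => RightExit (2*k+1) m b)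
    (fun k _ l _ h => rightExit_disj m b h) (fun k _ => meas_rightExit _ _ _)]
  refine le_trans (measureReal_mono ?_) (measureReal_union_le _ _)
  exact Set.iUnion₂_subset fun k _ => rightExit_sub k ha hb

theorem leftExit_sub {a m b b' : ℕ} (k : ℕ) (ha : 1 ≤ a) (hb : b ≤ 2*k) (hb' : 1 ≤ b') :
    LeftExit a m (2*k) ⊆ (EX.ExitLeft a m b' \ EX.ExitLeft a m b) ∪ EX.ExitRight a m b' := by
  rintro ω ⟨n, h1, h2⟩
  by_cases h : rightExtent m ω n < b'
  · left
    refine ⟨(left_iff a m b' ω).2 ⟨n, h1, h⟩, fun h3 => ?_⟩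
    obtain ⟨n', h4, h5⟩ := (left_iff a m b ω).1 h3
    rw [reachLeft_unique h4 h1] at h5
    push_cast at h2
    omega
  · right
    rw [right_lt_iff] at h
    push Not at h
    obtain ⟨j, hj, hj2⟩ := h
    have hjn : j < n := by
      rcases Nat.lt_or_eq_of_le hj with h3 | h3
      · exact h3
      · exfalso
        rw [h3] at hj2
        have h4 := h1.1
        have h5 := col_rel (path m ω n)
        omega
    exact ⟨j, hj2, fun i hi => ⟨h1.2.1 i (by omega), h1.2.2 i (by omega)⟩⟩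

theorem leftExit_sum {a m b b' : ℕ} (ha : 1 ≤ a) (hbb : b ≤ b') (hb' : 1 ≤ b') (s : Finset ℕ)
    (hs : ∀ k ∈ s, b ≤ 2*k) :
    ∑ k ∈ s, perc.real (LeftExit a m (2*k)) ≤ perc.real (EX.ExitLeft a m b') -
      perc.real (EX.ExitLeft a m b) + perc.real (EX.ExitRight a m b') := by
  rw [← measureReal_biUnion_finset (μ := perc) (f := fun k => LeftExit a m (2*k))
    (fun k _ l _ h => leftExit_disj a m h) (fun k _ => meas_leftExit _ _ _)]
  have hsub : EX.ExitLeft a m b ⊆ EX.ExitLeft a m b' := by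
    intro ω h
    rw [left_iff] at h ⊢
    obtain ⟨n, h1, h2⟩ := h
    exact ⟨n, h1, by omega⟩
  have h1 : perc.real (EX.ExitLeft a m b' \ EX.ExitLeft a m b) =
      perc.real (EX.ExitLeft a m b') - perc.real (EX.ExitLeft a m b) :=
    measureReal_sdiff hsub (EX.meas_left a m b)
  rw [← h1]
  refine le_trans (measureReal_mono ?_) (measureReal_union_le _ _)
  exact Set.iUnion₂_subset fun k hk => leftExit_sub k ha (hs k hk) hb'

theorem leftLaw_eq (α γ β : ℝ) : leftLaw α γ β = N9.Lft α γ β := by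
  unfold leftLaw N9.Lft
  rw [gk_eq]

theorem rightLaw_eq (α γ β : ℝ) : rightLaw α γ β = N9.Rgt α γ β := by
  unfold N9.Rgt
  rw [gk_eq]
  rfl

theorem lim_left {α γ β : ℝ} (hα : 0 < α) (hγ : 0 < γ) (hβ : 0 < β) {δ : ℕ → ℝ} {a m b : ℕ → ℕ}
    (hδ : ∀ n, 0 < δ n) (hδ0 : Tendsto δ atTop (𝓝 0)) (ha : Tendsto (fun n => δ n * a n) atTop (𝓝 α))
    (hm : Tendsto (fun n => δ n * m n) atTop (𝓝 γ)) (hb : Tendsto (fun n => δ n * b n) atTop (𝓝 β)) :
    Tendsto (fun n => perc.real (EX.ExitLeft (a n) (m n) (b n))) atTop (𝓝 (leftLaw α γ β)) :=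
  EX.lim_left hα hγ hβ ⟨hδ, hδ0, ha, hm, hb⟩

theorem lim_right {α γ β : ℝ} (hα : 0 < α) (hγ : 0 < γ) (hβ : 0 < β) {δ : ℕ → ℝ} {a m b : ℕ → ℕ}
    (hδ : ∀ n, 0 < δ n) (hδ0 : Tendsto δ atTop (𝓝 0)) (ha : Tendsto (fun n => δ n * a n) atTop (𝓝 α))
    (hm : Tendsto (fun n => δ n * m n) atTop (𝓝 γ)) (hb : Tendsto (fun n => δ n * b n) atTop (𝓝 β)) :
    Tendsto (fun n => perc.real (EX.ExitRight (a n) (m n) (b n))) atTop (𝓝 (rightLaw α γ β)) :=
  EX.lim_right hα hγ hβ ⟨hδ, hδ0, ha, hm, hb⟩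

theorem law_le {α γ β : ℝ} (hα : 0 < α) (hγ : 0 < γ) (hβ : 0 < β) :
    leftLaw α γ β ≤ 1 ∧ rightLaw α γ β ≤ 1 := by
  have hδ : ∀ n : ℕ, (0:ℝ) < 1 / ((n:ℝ) + 1) := fun n => by positivity
  have hδ0 : Tendsto (fun n : ℕ => 1 / ((n:ℝ) + 1)) atTop (𝓝 0) :=
    tendsto_one_div_add_atTop_nhds_zero_nat
  obtain ⟨a, -, -, -, ha⟩ := N9.exists_width hδ hδ0 hα
  obtain ⟨m, -, -, -, hm⟩ := N9.exists_width hδ hδ0 hγ
  obtain ⟨b, -, -, -, hb⟩ := N9.exists_width hδ hδ0 hβ
  exact ⟨le_of_tendsto' (lim_left hα hγ hβ hδ hδ0 ha hm hb) fun n => measureReal_le_one,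
    le_of_tendsto' (lim_right hα hγ hβ hδ hδ0 ha hm hb) fun n => measureReal_le_one⟩

theorem tv_right {γ β : ℝ} {δ : ℕ → ℝ} {m b : ℕ → ℕ} (hγ : 0 < γ) (hβ : 0 < β)
    (hδ : ∀ n, 0 < δ n) (hδ0 : Tendsto δ atTop (𝓝 0))
    (em : ∀ n, Even (m n)) (eb : ∀ n, Even (b n)) (hm : Tendsto (fun n => δ n * m n) atTop (𝓝 γ))
    (hb : Tendsto (fun n => δ n * b n) atTop (𝓝 β)) :
    ∀ ε : ℝ, 0 < ε → ∀ᶠ n in atTop, ∀ s : Finset ℕ,
      ∑ k ∈ s, |perc.real (RightExit (2*k+1) (m n) (b n)) -
        ∫ x in Ioc (δ n * (2*k+1)) (δ n * (2*k+3)), eR x γ β| < ε := by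
  obtain ⟨l, hl, hi, hM⟩ := N9.mass_of (F := fun t => rightLaw t γ β) (f := fun t => eR t γ β)
    (c := 0) le_rfl (fun x hx => der_right hx hγ hβ) (fun x hx => (eR_pos hx hγ hβ).le)
    (fun x hx => (law_le hx hγ hβ).2) (fun _ => by
      have h := N9.t_L1 γ β hγ hβ
      simp only [rightLaw_eq]
      exact h)
  rw [if_pos rfl, sub_zero] at hM
  intro ε hε
  have h1 := N9.t_T (fun t => eR t γ β) δ
    (fun n k => perc.real (RightExit (2*k+1) (m n) (b n))) 0 l 1 hδ hδ0 le_rfl
    (fun x hx => (eR_pos hx hγ hβ).le) hi hM (fun n k => measureReal_nonneg) ?_ ?_ ε hε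
  · filter_upwards [h1] with n hn s
    have h2 := hn s (fun k _ => by
      have := (hδ n).le
      positivity)
    refine lt_of_eq_of_lt (Finset.sum_congr rfl fun k _ => ?_) h2
    rw [Nat.cast_one, show (2*(k:ℝ)+1+2) = 2*k+3 by ring]
  · intro ε hε
    have h2 := N9.t_L2 γ β hγ hβ
    obtain ⟨α, hα1, hα⟩ := ((h2.eventually (gt_mem_nhds (show (0:ℝ) < ε/3 by linarith))).and
      (eventually_gt_atTop 0)).exists
    rw [← leftLaw_eq] at hα1
    obtain ⟨a, ha1, -, -, ha⟩ := N9.exists_width hδ hδ0 hα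
    have hR := lim_right hα hγ hβ hδ hδ0 ha hm hb
    have hL := lim_left hα hγ hβ hδ hδ0 ha hm hb
    have hle : rightLaw α γ β ≤ l := hl α hα
    filter_upwards [hR.eventually (gt_mem_nhds (show rightLaw α γ β < l + ε/3 by linarith)),
      hL.eventually (gt_mem_nhds hα1),
      hb.eventually (lt_mem_nhds hβ)] with n e1 e2 e3 s _
    have hb1 : 1 ≤ b n := by
      rcases Nat.eq_zero_or_pos (b n) with h | h
      · rw [h] at e3
        simp at e3
      · exact h
    have h3 := rightExit_sum (a := a n) (m := m n) (ha1 n) hb1 s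
    linarith
  · intro x k hx hk
    refine lim_rightExit ⟨hx, hγ, hβ, hδ, hδ0, fun n => ⟨k n, rfl⟩, em, eb, ?_, hm, hb⟩
    refine hk.congr fun n => ?_
    push_cast
    ring

theorem tv_left {α γ c : ℝ} {δ : ℕ → ℝ} {a m : ℕ → ℕ} (hα : 0 < α) (hγ : 0 < γ) (hc : 0 < c)
    (hδ : ∀ n, 0 < δ n) (hδ0 : Tendsto δ atTop (𝓝 0))
    (oa : ∀ n, Odd (a n)) (em : ∀ n, Even (m n)) (ha : Tendsto (fun n => δ n * a n) atTop (𝓝 α))
    (hm : Tendsto (fun n => δ n * m n) atTop (𝓝 γ)) :
    ∀ ε : ℝ, 0 < ε → ∀ᶠ n in atTop, ∀ s : Finset ℕ, (∀ k ∈ s, c ≤ δ n * (2*k)) →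
      ∑ k ∈ s, |perc.real (LeftExit (a n) (m n) (2*k)) -
        ∫ x in Ioc (δ n * (2*k)) (δ n * (2*k+2)), eL α γ x| < ε := by
  obtain ⟨l, hl, hi, hM⟩ := N9.mass_of (F := fun t => leftLaw α γ t) (f := fun t => eL α γ t)
    (c := c) hc.le (fun x hx => der_left hα hγ hx) (fun x hx => (eL_pos hα hγ hx).le)
    (fun x hx => (law_le hα hγ hx).1) (fun h => absurd h hc.ne')
  rw [if_neg hc.ne'] at hM
  intro ε hε
  have h1 := N9.t_T (fun t => eL α γ t) δ
    (fun n k => perc.real (LeftExit (a n) (m n) (2*k))) c _ 0 hδ hδ0 hc.le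
    (fun x hx => (eL_pos hα hγ (hc.trans hx)).le) hi hM (fun n k => measureReal_nonneg) ?_ ?_ ε hε
  · filter_upwards [h1] with n hn s hs
    have h2 := hn s (fun k hk => by
      rw [Nat.cast_zero, add_zero]
      exact hs k hk)
    refine lt_of_eq_of_lt (Finset.sum_congr rfl fun k _ => ?_) h2
    rw [Nat.cast_zero, add_zero]
  · intro ε hε
    have h2 := N9.t_L3 α γ hα hγ
    obtain ⟨β, hβ1, hβc⟩ := ((h2.eventually (gt_mem_nhds (show (0:ℝ) < ε/4 by linarith))).and
      (eventually_gt_atTop c)).exists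
    rw [← rightLaw_eq] at hβ1
    have hβ : 0 < β := hc.trans hβc
    obtain ⟨b', hb1, -, -, hb'⟩ := N9.exists_width hδ hδ0 hβ
    obtain ⟨b, -, -, hbmin, hb⟩ := N9.exists_width hδ hδ0 hc
    have hR := lim_right hα hγ hβ hδ hδ0 ha hm hb'
    have hL := lim_left hα hγ hβ hδ hδ0 ha hm hb'
    have hL0 := lim_left hα hγ hc hδ hδ0 ha hm hb
    have hle : leftLaw α γ β ≤ l := hl β hβ
    filter_upwards [hR.eventually (gt_mem_nhds hβ1),
      hL.eventually (gt_mem_nhds (show leftLaw α γ β < l + ε/4 by linarith)),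
      hL0.eventually (lt_mem_nhds (show leftLaw α γ c - ε/4 < leftLaw α γ c by linarith)),
      (hb'.sub hb).eventually (lt_mem_nhds (show 0 < β - c by linarith))] with n e1 e2 e3 e4 s hs
    have hbb : b n ≤ b' n := by
      have h5 : δ n * b n < δ n * b' n := by linarith
      have h6 := lt_of_mul_lt_mul_left h5 (hδ n).le
      exact_mod_cast h6.le
    have h3 := leftExit_sum (a := a n) (m := m n) (oa n).pos hbb (hb1 n) s (fun k hk => by
      apply hbmin n (2*k)
      have := hs k hk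
      push_cast at this ⊢
      linarith)
    show ∑ k ∈ s, perc.real (LeftExit (a n) (m n) (2*k)) ≤ l - leftLaw α γ c + ε
    linarith
  · intro x k hx hk
    refine lim_leftExit ⟨hα, hγ, hc.trans hx, hδ, hδ0, oa, em, fun n => ⟨k n, by ring⟩, ha, hm, ?_⟩
    refine hk.congr fun n => ?_
    push_cast
    ring

/-! ## The theorem -/

/-- **Local limit theorem for the exits of the exploration path.** Let `α, γ, β > 0`.
(1) `lo α γ β < hi α γ β` are the images of the corners of the slit under a conformal map of the strip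
`-α < X < γ + β` without the slit onto the half-plane (`Uniformizes`); `eL α γ β > 0` is the derivative
in `β` of Cardy's formula `leftLaw` for the exit through the left line, `eR α γ β > 0` the derivative in
`α` of Cardy's formula `rightLaw` for the exit through the right line.
Let `δ → 0`.
(2) Let `a` be odd, `m`, `b` even, `δ a → α`, `δ m → γ`, `δ b → β`. Then the probability that the
path reaches the left line (column `-a`) before the right bank, its right extent being then `b` or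
`b + 1`, divided by `2 δ`, tends to `eL α γ β`; and the probability that the path reaches the right line
(column `m + b`) before the right bank, its left extent being then `a` or `a + 1`, divided by `2 δ`,
tends to `eR α γ β`.
(3) Total variation, right line: let `m`, `b` be even, `δ m → γ`, `δ b → β`. The sum over all the windows
`{2k+1, 2k+2}` of `|P(the left extent is in the window) - (integral of eR x γ β over the window)|` tends
to `0`.
(4) Total variation, left line: let `a` be odd, `m` even, `δ a → α`, `δ m → γ`. For every `c > 0` the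
sum over all the windows `{2k, 2k+1}` with `c ≤ 2 k δ` of
`|P(the right extent is in the window) - (integral of eL α γ x over the window)|` tends to `0`. -/
theorem result (α γ β : ℝ) (hα : 0 < α) (hγ : 0 < γ) (hβ : 0 < β) :
    (0 < lo α γ β ∧ lo α γ β < hi α γ β ∧ hi α γ β < 1 ∧
      lo α γ β * hi α γ β = (α / (α + γ + β))^2 ∧
      (1 - lo α γ β) * (1 - hi α γ β) = (β / (α + γ + β))^2 ∧
      (∃ φ : ℂ → ℂ, Uniformizes α γ β (lo α γ β) (hi α γ β) φ) ∧
      HasDerivAt (fun t => leftLaw α γ t) (eL α γ β) β ∧ 0 < eL α γ β ∧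
      HasDerivAt (fun t => rightLaw t γ β) (eR α γ β) α ∧ 0 < eR α γ β) ∧
    ∀ (δ : ℕ → ℝ) (m : ℕ → ℕ), (∀ n, 0 < δ n) → Tendsto δ atTop (𝓝 0) → (∀ n, Even (m n)) →
      Tendsto (fun n => δ n * m n) atTop (𝓝 γ) →
      (∀ a b : ℕ → ℕ, (∀ n, Odd (a n)) → (∀ n, Even (b n)) →
        Tendsto (fun n => δ n * a n) atTop (𝓝 α) → Tendsto (fun n => δ n * b n) atTop (𝓝 β) →
        Tendsto (fun n => perc.real (LeftExit (a n) (m n) (b n)) / (2 * δ n)) atTop
          (𝓝 (eL α γ β)) ∧
        Tendsto (fun n => perc.real (RightExit (a n) (m n) (b n)) / (2 * δ n)) atTop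
          (𝓝 (eR α γ β))) ∧
      (∀ b : ℕ → ℕ, (∀ n, Even (b n)) → Tendsto (fun n => δ n * b n) atTop (𝓝 β) →
        ∀ ε : ℝ, 0 < ε → ∀ᶠ n in atTop, ∀ s : Finset ℕ,
          ∑ k ∈ s, |perc.real (RightExit (2*k+1) (m n) (b n)) -
            ∫ x in Ioc (δ n * (2*k+1)) (δ n * (2*k+3)), eR x γ β| < ε) ∧
      (∀ a : ℕ → ℕ, (∀ n, Odd (a n)) → Tendsto (fun n => δ n * a n) atTop (𝓝 α) →
        ∀ c : ℝ, 0 < c → ∀ ε : ℝ, 0 < ε → ∀ᶠ n in atTop, ∀ s : Finset ℕ,
          (∀ k ∈ s, c ≤ δ n * (2*k)) → ∑ k ∈ s, |perc.real (LeftExit (a n) (m n) (2*k)) -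
            ∫ x in Ioc (δ n * (2*k)) (δ n * (2*k+2)), eL α γ x| < ε) := by
  refine ⟨?_, fun δ m hδ hδ0 em hm => ⟨fun a b oa eb ha hb => ?_,
    fun b eb hb => tv_right hγ hβ hδ hδ0 em eb hm hb,
    fun a oa ha c hc => tv_left hα hγ hc hδ hδ0 oa em ha hm⟩⟩
  · obtain ⟨h1, h2, h3, h4, h5⟩ := EX.X_facts hα hγ hβ
    refine ⟨h1, h2, h3, h4, h5, ?_, der_left hα hγ hβ, eL_pos hα hγ hβ, der_right hα hγ hβ,
      eR_pos hα hγ hβ⟩
    obtain ⟨φ, hf⟩ := Pool.Agent.NH38.Fork.t_UG α γ β hα hγ hβ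
    exact ⟨φ, ⟨hf.holo, hf.bij, hf.cont, hf.leftWall, hf.innerWall, hf.corner, hf.ledge,
      hf.corner', hf.innerWall', hf.rightWall⟩⟩
  · have W : N5.Wd α γ β δ a m b := ⟨hα, hγ, hβ, hδ, hδ0, oa, em, eb, ha, hm, hb⟩
    exact ⟨lim_leftExit W, lim_rightExit W⟩

end Pool.Agent.Results.MP_b3e76a_pr.ExitLocalLimit
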